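import Pool.Agent.Helper16.MD.Stmts

open Finset Filter
open scoped ComplexConjugate

namespace Pool.Agent.Helper16.MD

open Pool.Agent.Helper51.Mo (PM pw len Lev Orth)

theorem stb_ee_pow (θ : ℝ) (x : ℕ) : ee (θ * x) = ee θ ^ x := by
  unfold ee
  rw [← Complex.exp_nat_mul]
  congr 1
  push_cast
  ring

theorem stb_ee_int (θ : ℝ) (m : ℤ) (h : 2 * θ = m) : ee θ = (-1) ^ m := by
  unfold ee
  have h1 : ((2 * Real.pi * θ : ℝ) : ℂ) * Complex.I = (m : ℂ) * ((Real.pi : ℂ) * Complex.I) := by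
    have h2 : ((2 * θ : ℝ) : ℂ) = ((m : ℝ) : ℂ) := by rw [h]
    push_cast at h2 ⊢
    linear_combination (Real.pi : ℂ) * Complex.I * h2
  rw [h1, Complex.exp_int_mul, Complex.exp_pi_mul_I]

theorem stb_norm_ee (θ : ℝ) : ‖ee θ‖ = 1 := by
  unfold ee
  exact Complex.norm_exp_ofReal_mul_I _

/-- the mean in terms of a sign -/
theorem stb_AW (β : ℕ → ℕ → ℝ) (ℓ : ℕ → ℕ) (i : ℕ) (θ ε : ℝ) (h : ee θ = (ε : ℂ)) :
    AW β ℓ i θ = |(∑ x ∈ range (ℓ i), ε ^ x * β i x) / (ℓ i : ℝ)| := by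
  unfold AW
  rw [← Real.norm_eq_abs, ← Complex.norm_real]
  congr 1
  push_cast
  congr 1
  refine Finset.sum_congr rfl (fun x _ => ?_)
  rw [stb_ee_pow, h]
  ring

theorem stb_AW_nonneg (β : ℕ → ℕ → ℝ) (ℓ : ℕ → ℕ) (i : ℕ) (θ : ℝ) : 0 ≤ AW β ℓ i θ :=
  norm_nonneg _

theorem stb_AW_le (β : ℕ → ℕ → ℝ) (ℓ : ℕ → ℕ) (i : ℕ) (θ : ℝ) (hℓ : 2 ≤ ℓ i)
    (hβ : ∀ n, PM (β i n)) : AW β ℓ i θ ≤ 1 := by
  unfold AW
  have hpos : (0 : ℝ) < ℓ i := by
    have : 0 < ℓ i := by omega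
    exact_mod_cast this
  rw [norm_div, Complex.norm_natCast, div_le_one hpos]
  refine (norm_sum_le _ _).trans ?_
  have h1 : ∀ x ∈ range (ℓ i), ‖((β i x : ℝ) : ℂ) * ee (θ * x)‖ ≤ 1 := by
    intro x _
    rw [norm_mul, stb_norm_ee, Complex.norm_real, Real.norm_eq_abs, (hβ x).abs, mul_one]
  refine (Finset.sum_le_sum h1).trans ?_
  simp

theorem st_STB (hW : ST_WRD) : ST_STB := by
  intro β ℓ s c θ hℓ hβ hc hprod
  obtain ⟨τ, hτ, hW⟩ := hW
  set a : ℕ → ℝ := fun i => AW β ℓ (s + i) (θ * len ℓ s i) with ha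
  have ha0 : ∀ i, 0 ≤ a i := fun i => stb_AW_nonneg _ _ _ _
  have ha1 : ∀ i, a i ≤ 1 := fun i => stb_AW_le _ _ _ _ (hℓ _) (hβ _)
  have hsum : Summable (fun i => 1 - a i) := by
    refine summable_of_sum_range_le (c := -Real.log c) (fun i => by have := ha1 i; linarith)
      (fun k => ?_)
    have h1 : ∏ i ∈ range k, a i ≤ Real.exp (-(∑ i ∈ range k, (1 - a i))) := by
      rw [← Finset.sum_neg_distrib, Real.exp_sum]
      refine Finset.prod_le_prod (fun i _ => ha0 i) (fun i _ => ?_)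
      have := Real.add_one_le_exp (-(1 - a i))
      linarith
    have h2 : c ≤ Real.exp (-(∑ i ∈ range k, (1 - a i))) := (hprod k).trans h1
    have h3 := Real.log_le_log hc h2
    rw [Real.log_exp] at h3
    linarith
  have hlim := hsum.tendsto_atTop_zero
  obtain ⟨i1, hi1⟩ : ∃ i1, ∀ i, i1 ≤ i → 1 - τ ≤ a i := by
    have h1 := hlim.eventually (gt_mem_nhds hτ)
    rw [Filter.eventually_atTop] at h1
    obtain ⟨i1, hi1⟩ := h1
    exact ⟨i1, fun i hi => by have := hi1 i hi; linarith⟩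
  have hm : ∀ i, ∃ m : ℤ, i1 ≤ i → (ℓ (s + i) : ℝ) * |2 * (θ * len ℓ s i) - m| ≤ 1 / 4 := by
    intro i
    by_cases hi : i1 ≤ i
    · obtain ⟨m, hm⟩ := hW β ℓ (s + i) (θ * len ℓ s i) (hℓ _) (hβ _) (hi1 i hi)
      exact ⟨m, fun _ => hm⟩
    · exact ⟨0, fun h => absurd h hi⟩
  choose m hm using hm
  set φ : ℕ → ℝ := fun i => 2 * (θ * len ℓ s i) - m i with hφ
  have hstep : ∀ i, i1 ≤ i → m (i + 1) = ℓ (s + i) * m i ∧ φ (i + 1) = ℓ (s + i) * φ i := by
    intro i hi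
    have h1 := hm i hi
    have h2 := hm (i + 1) (by omega)
    have hl2 : (2 : ℝ) ≤ ℓ (s + (i + 1)) := by exact_mod_cast hℓ _
    have h3 : |φ (i + 1)| ≤ 1 / 8 := by
      have : 2 * |φ (i + 1)| ≤ ℓ (s + (i + 1)) * |φ (i + 1)| :=
        mul_le_mul_of_nonneg_right hl2 (abs_nonneg _)
      have h4 : (ℓ (s + (i + 1)) : ℝ) * |φ (i + 1)| ≤ 1 / 4 := h2
      linarith
    have h4 : |(ℓ (s + i) : ℝ) * φ i| ≤ 1 / 4 := by
      rw [abs_mul, abs_of_nonneg (Nat.cast_nonneg _)]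
      exact h1
    have hlen : (len ℓ s (i + 1) : ℝ) = len ℓ s i * ℓ (s + i) := by
      rw [Pool.Agent.Helper51.Mo.len_succ']
      push_cast
      ring
    have h5 : φ (i + 1) = ℓ (s + i) * φ i + (ℓ (s + i) * m i - m (i + 1)) := by
      simp only [hφ]
      rw [hlen]
      ring
    have h6 : ((ℓ (s + i) * m i - m (i + 1) : ℤ) : ℝ) = φ (i + 1) - ℓ (s + i) * φ i := by
      rw [h5]; push_cast; ring
    have h7 : |((ℓ (s + i) * m i - m (i + 1) : ℤ) : ℝ)| < 1 := by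
      rw [h6]
      refine lt_of_le_of_lt (abs_sub _ _) ?_
      linarith
    have h8 : (ℓ (s + i) * m i - m (i + 1) : ℤ) = 0 := by
      have : |(ℓ (s + i) * m i - m (i + 1) : ℤ)| < 1 := by exact_mod_cast h7
      exact Int.abs_lt_one_iff.mp this
    refine ⟨by omega, ?_⟩
    rw [h8] at h6
    push_cast at h6
    linarith
  have hφ1 : φ i1 = 0 := by
    by_contra hne
    have hpos : 0 < |φ i1| := abs_pos.mpr hne
    have hgrow : ∀ t, 2 ^ t * |φ i1| ≤ |φ (i1 + t)| := by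
      intro t
      induction t with
      | zero => simp
      | succ t ih =>
        have h1 := (hstep (i1 + t) (by omega)).2
        have hl2 : (2 : ℝ) ≤ ℓ (s + (i1 + t)) := by exact_mod_cast hℓ _
        rw [show i1 + (t + 1) = i1 + t + 1 by ring, h1, abs_mul,
          abs_of_nonneg (Nat.cast_nonneg (ℓ (s + (i1 + t))) : (0 : ℝ) ≤ (ℓ (s + (i1 + t)) : ℝ)),
          pow_succ]
        calc 2 ^ t * 2 * |φ i1| = 2 * (2 ^ t * |φ i1|) := by ring
          _ ≤ ℓ (s + (i1 + t)) * |φ (i1 + t)| := by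
            refine mul_le_mul hl2 ih (by positivity) (by positivity)
    obtain ⟨t, ht⟩ := pow_unbounded_of_one_lt (1 / |φ i1|) (by norm_num : (1 : ℝ) < 2)
    have h1 := hgrow t
    have h2 := hm (i1 + t) (by omega)
    have hl2 : (2 : ℝ) ≤ ℓ (s + (i1 + t)) := by exact_mod_cast hℓ _
    have h3 : 2 * |φ (i1 + t)| ≤ ℓ (s + (i1 + t)) * |φ (i1 + t)| :=
      mul_le_mul_of_nonneg_right hl2 (abs_nonneg _)
    have h4 : (ℓ (s + (i1 + t)) : ℝ) * |φ (i1 + t)| ≤ 1 / 4 := h2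
    rw [div_lt_iff₀ hpos] at ht
    linarith
  have hφz : ∀ t, φ (i1 + t) = 0 := by
    intro t
    induction t with
    | zero => exact hφ1
    | succ t ih =>
      have h1 := (hstep (i1 + t) (by omega)).2
      rw [show i1 + (t + 1) = i1 + t + 1 by ring, h1, ih, mul_zero]
  have hφz' : ∀ i, i1 ≤ i → 2 * (θ * len ℓ s i) = m i := by
    intro i hi
    have h1 := hφz (i - i1)
    rw [show i1 + (i - i1) = i by omega] at h1
    simp only [hφ] at h1
    linarith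
  have hshift : ∀ i0, Summable (fun i => 1 - a (i0 + i)) := by
    intro i0
    have := (summable_nat_add_iff i0).mpr hsum
    simpa [add_comm] using this
  by_cases hev : ∃ i2, i1 ≤ i2 ∧ Even (m i2)
  · obtain ⟨i2, hi2, hev2⟩ := hev
    have hall : ∀ t, Even (m (i2 + t)) := by
      intro t
      induction t with
      | zero => exact hev2
      | succ t ih =>
        rw [show i2 + (t + 1) = i2 + t + 1 by ring, (hstep (i2 + t) (by omega)).1]
        exact ih.mul_left _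
    refine ⟨s + i2, 1, Or.inl rfl, ?_⟩
    refine (hshift i2).congr (fun i => ?_)
    have h1 : a (i2 + i) = AW β ℓ (s + i2 + i) (θ * len ℓ s (i2 + i)) := by
      simp only [ha, add_assoc]
    rw [h1, stb_AW β ℓ (s + i2 + i) _ 1 (by
      rw [stb_ee_int _ _ (hφz' (i2 + i) (by omega)), (hall i).neg_one_zpow]; simp)]
  · push Not at hev
    have hodd : ∀ i, i1 ≤ i → Odd (m i) := fun i hi => Int.not_even_iff_odd.mp (hev i hi)
    refine ⟨s + i1, -1, Or.inr ⟨rfl, ?_⟩, ?_⟩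
    · intro i hi
      have h1 := (hstep (i - s) (by omega)).1
      have h2 := hodd (i - s + 1) (by omega)
      rw [h1, show s + (i - s) = i by omega, Int.odd_mul] at h2
      exact_mod_cast h2.1
    · refine (hshift i1).congr (fun i => ?_)
      have h1 : a (i1 + i) = AW β ℓ (s + i1 + i) (θ * len ℓ s (i1 + i)) := by
        simp only [ha, add_assoc]
      rw [h1, stb_AW β ℓ (s + i1 + i) _ (-1) (by
        rw [stb_ee_int _ _ (hφz' (i1 + i) (by omega)), (hodd _ (by omega)).neg_one_zpow]; simp)]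

end Pool.Agent.Helper16.MD
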